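import Mathlib
import Pool.Agent.Helper168.SV.Family

/-!
# Lehmer's problem for families of matrices with bounded Gram height

Let `A(z) = z ^ (-d) P(z)` be a square matrix, of any size, of Laurent polynomials with integer
coefficients in any number `k` of variables.  Its Gram height is the mean over the torus of the
logarithm of the product of the numbers `max(1, σ ^ 2)` over the singular values `σ` of `A(z)`; this is
the logarithm of the Mahler measure of the characteristic polynomial of `A(z)* A(z)`.

For every `K` there is `μ > 1`, independent of `k`, of the size and of `A`, such that the Mahler measure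
of the characteristic polynomial `det (z_0 - A(z))`, a Laurent polynomial in `k + 1` variables, is
`1` or at least `μ` if the Gram height of `A` is at most `K`.  For `k = 0` these are the integer
matrices `A` with `M(Aᵀ A) ≤ exp K`.  Nothing is assumed on irreducibility, on normality, or on
the eigenvectors.

Method.  At a point of the torus with `r` singular values larger than `1` the matrix is the sum of a
contraction and of a matrix of rank `r`; a determinant inequality for accretive matrices bounds the
characteristic polynomial and its diagonal minors on the circle by `3 ^ (2 r + 2)` times a polynomial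
all of whose zeros lie in the unit disc and whose leading coefficient is at most twice the product of
the `σ ^ 2 > 1`.  The product of the distances to `1` of the squares of the singular values other than
`1` is the absolute value of a nonzero integer polynomial in `z` at almost all points of the torus, so
the mean of its logarithm is nonnegative; this bounds the mean of `r` by the Gram height.  So the pairs
(characteristic polynomial, minor) have bounded height, and the gap for such pairs and the theory of
the minors are in the starting files.
-/

set_option autoImplicit false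

namespace Pool.Agent.Results.MP_dc0c68_nt.GramHeight

open MeasureTheory

noncomputable section

/-- Value of an integer polynomial in `k` variables at the torus point
`(exp (2 π i t_1), …, exp (2 π i t_k))`. -/
def value {k : ℕ} (F : MvPolynomial (Fin k) ℤ) (t : Fin k → ℝ) : ℂ :=
  MvPolynomial.eval
    (fun j : Fin k => Complex.exp (2 * (Real.pi : ℂ) * Complex.I * ((t j : ℝ) : ℂ)))
    (MvPolynomial.map (Int.castRingHom ℂ) F)

/-- The Mahler measure of an integer polynomial in `k` variables. -/
def mahler {k : ℕ} (F : MvPolynomial (Fin k) ℤ) : ℝ :=
  Real.exp (∫ t in Set.Icc (0 : Fin k → ℝ) 1, Real.log ‖value F t‖)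

/-- The matrix of Laurent polynomials `A = z ^ (-d) P(z)` at a point of the torus. -/
def laurent {k n : ℕ} (P : Matrix (Fin n) (Fin n) (MvPolynomial (Fin k) ℤ)) (d : Fin k →₀ ℕ)
    (t : Fin k → ℝ) : Matrix (Fin n) (Fin n) ℂ :=
  Matrix.of fun i j => (value (MvPolynomial.monomial d 1) t)⁻¹ * value (P i j) t

/-- The polynomial `det (z_0 z ^ d - P(z))` in `z_0, z_1, …, z_k`; up to the monomial `z ^ (n d)` it is
the characteristic polynomial `det (z_0 - A(z))`. -/
def charDet {k n : ℕ} (P : Matrix (Fin n) (Fin n) (MvPolynomial (Fin k) ℤ)) (d : Fin k →₀ ℕ) :
    MvPolynomial (Fin (k + 1)) ℤ :=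
  (Matrix.of fun i j => (if i = j then MvPolynomial.X 0 *
    MvPolynomial.rename Fin.succ (MvPolynomial.monomial d 1) else 0) -
    MvPolynomial.rename Fin.succ (P i j)).det

/-- The mean over the torus of the logarithm of the Mahler measure of the characteristic polynomial
of `A(z)* A(z)`, that is, of the product of the numbers `max(1, σ ^ 2)` over the singular values of
`A(z)`. -/
def gramHeight {k n : ℕ} (P : Matrix (Fin n) (Fin n) (MvPolynomial (Fin k) ℤ))
    (d : Fin k →₀ ℕ) : ℝ :=
  ∫ t in Set.Icc (0 : Fin k → ℝ) 1,
    Real.log ((laurent P d t).conjTranspose * laurent P d t).charpoly.mahlerMeasure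

theorem result (K : ℝ) : ∃ μ : ℝ, 1 < μ ∧
    ∀ (k n : ℕ) (P : Matrix (Fin n) (Fin n) (MvPolynomial (Fin k) ℤ)) (d : Fin k →₀ ℕ),
      gramHeight P d ≤ K → mahler (charDet P d) = 1 ∨ μ ≤ mahler (charDet P d) := by
  obtain ⟨μ, hμ, h⟩ := Pool.Agent.Helper168.SV.gap_torus K
  refine ⟨μ, hμ, fun k n P d hK => ?_⟩
  have h1 : charDet P d = (Pool.Agent.W110.PF.pm Polynomial.X 0 P d).det := by
    unfold charDet Pool.Agent.W110.PF.pm
    congr 1
    ext1 i j
    rw [Matrix.of_apply, Matrix.of_apply, Polynomial.aeval_X, pow_zero, one_mul]
  rw [h1]
  exact h k n P d hK

end

end Pool.Agent.Results.MP_dc0c68_nt.GramHeight
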